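import Mathlib

set_option autoImplicit false

namespace Pool.Agent.Y708.SplitFive

open DirichletCharacter

/-- A quadratic character whose level is divisible by 25 is not primitive. -/
lemma not_dvd_of_primitive {k : ℕ} [NeZero (5 * k)] (χ : DirichletCharacter ℂ (5 * k))
    (hχ : χ.IsPrimitive) (hq : χ ^ 2 = 1) : ¬ 5 ∣ k := by
  intro hk
  have hk0 : k ≠ 0 := by
    rintro rfl
    exact (NeZero.ne (5 * 0)) rfl
  have hdvd : k ∣ 5 * k := Dvd.intro_left 5 rfl
  have hfac : χ.FactorsThrough k := by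
    rw [factorsThrough_iff_ker_unitsMap hdvd]
    intro u hu
    rw [MonoidHom.mem_ker] at hu ⊢
    have h1 : ZMod.castHom hdvd (ZMod k) (u : ZMod (5 * k)) = 1 := by
      have := congrArg Units.val hu
      simpa [ZMod.unitsMap] using this
    -- u = 1 + k * j
    obtain ⟨a, ha⟩ : ∃ a : ℤ, (a : ZMod (5 * k)) = (u : ZMod (5 * k)) := ZMod.intCast_surjective _
    have h2 : ((a : ℤ) : ZMod k) = ((1 : ℤ) : ZMod k) := by
      rw [← ha, map_intCast] at h1
      rw [h1, Int.cast_one]
    rw [ZMod.intCast_eq_intCast_iff_dvd_sub] at h2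
    obtain ⟨j, hj⟩ := h2
    obtain ⟨l, hl⟩ := hk
    have h3 : ((u : ZMod (5 * k))) ^ 5 = 1 := by
      rw [← ha, ← Int.cast_pow]
      have h4 : ((a ^ 5 : ℤ) : ZMod (5 * k)) = ((1 : ℤ) : ZMod (5 * k)) := by
        rw [ZMod.intCast_eq_intCast_iff_dvd_sub]
        have ha' : a = 1 - k * j := by linarith
        rw [ha']
        have hkl : (k : ℤ) = 5 * l := by exact_mod_cast hl
        refine ⟨j - 2 * k * j ^ 2 + 2 * k ^ 2 * j ^ 3 - k ^ 3 * j ^ 4 + l * k ^ 3 * j ^ 5, ?_⟩
        push_cast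
        have : (k : ℤ) ^ 5 * j ^ 5 = 5 * l * k ^ 4 * j ^ 5 := by
          rw [← hkl]; ring
        linear_combination this
      rw [h4, Int.cast_one]
    have h5 : (MulChar.toUnitHom χ u) ^ 5 = 1 := by
      rw [← map_pow]
      have : u ^ 5 = 1 := Units.ext (by simpa using h3)
      rw [this, map_one]
    have h6 : (MulChar.toUnitHom χ u) ^ 2 = 1 := by
      have h7 : (χ ^ 2) (u : ZMod (5 * k)) = 1 := by rw [hq]; exact MulChar.one_apply_coe u
      have h8 : χ (u : ZMod (5 * k)) ^ 2 = 1 := by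
        rw [← h7, MulChar.pow_apply_coe]
      apply Units.ext
      rw [Units.val_pow_eq_pow_val, MulChar.coe_toUnitHom, h8, Units.val_one]
    calc MulChar.toUnitHom χ u = (MulChar.toUnitHom χ u) ^ 5 * ((MulChar.toUnitHom χ u) ^ 2)⁻¹ ^ 2 := by
          group
      _ = 1 := by rw [h5, h6]; simp
  have h9 : χ.conductor ∣ k := χ.conductor_dvd_of_mem_conductorSet hfac
  rw [isPrimitive_def] at hχ
  rw [hχ] at h9
  have := Nat.le_of_dvd (Nat.pos_of_ne_zero hk0) h9
  omega

/-- Splitting off the prime 5 from a primitive quadratic Dirichlet character. -/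
theorem split_five {m : ℕ} [NeZero m] (χ : DirichletCharacter ℂ m) (hχ : χ.IsPrimitive)
    (hq : χ ^ 2 = 1) (h5 : 5 ∣ m) :
    ∃ (m' : ℕ) (_ : NeZero m') (χ' : DirichletCharacter ℂ m'), m = 5 * m' ∧ Nat.Coprime m' 5 ∧ χ'.IsPrimitive ∧ χ' ^ 2 = 1 ∧
      ∀ n : ℕ, (n % 5 = 1 ∨ n % 5 = 4) → χ n = χ' n := by
  obtain ⟨k, rfl⟩ := h5
  have hk : ¬ 5 ∣ k := not_dvd_of_primitive χ hχ hq
  have hk0 : k ≠ 0 := by
    rintro rfl
    exact (NeZero.ne (5 * 0)) rfl
  have : NeZero k := ⟨hk0⟩
  have hcop : Nat.Coprime 5 k := (Nat.Prime.coprime_iff_not_dvd (by norm_num)).2 hk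
  let e : ZMod (5 * k) ≃+* ZMod 5 × ZMod k := ZMod.chineseRemainder hcop
  have hdvd : k ∣ 5 * k := Dvd.intro_left 5 rfl
  have he : ∀ n : ℕ, e (n : ZMod (5 * k)) = ((n : ZMod 5), (n : ZMod k)) := by
    intro n
    rw [map_natCast]
    rfl
  -- the embedding of the units
  let ι : (ZMod k)ˣ →* (ZMod (5 * k))ˣ :=
    (Units.map (e.symm : (ZMod 5 × ZMod k) →* ZMod (5 * k))).comp
      ((MulEquiv.prodUnits.symm.toMonoidHom).comp (MonoidHom.inr (ZMod 5)ˣ (ZMod k)ˣ))
  have hι : ∀ v : (ZMod k)ˣ, ((ι v : (ZMod (5 * k))ˣ) : ZMod (5 * k)) = e.symm (1, (v : ZMod k)) := by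
    intro v
    rfl
  let χ' : DirichletCharacter ℂ k := MulChar.ofUnitHom ((MulChar.toUnitHom χ).comp ι)
  have hχ' : ∀ v : (ZMod k)ˣ, χ' (v : ZMod k) = χ (e.symm (1, (v : ZMod k))) := by
    intro v
    rw [MulChar.ofUnitHom_coe, MonoidHom.comp_apply, MulChar.coe_toUnitHom, hι]
  have hsq : ∀ x : ZMod (5 * k), IsUnit x → χ x * χ x = 1 := by
    rintro _ ⟨u, rfl⟩
    have h7 : (χ ^ 2) (u : ZMod (5 * k)) = 1 := by rw [hq]; exact MulChar.one_apply_coe u
    rw [← h7, MulChar.pow_apply_coe, pow_two]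
  have hq' : χ' ^ 2 = 1 := by
    apply MulChar.ext
    intro v
    rw [MulChar.pow_apply_coe, MulChar.one_apply_coe, hχ', pow_two]
    apply hsq
    rw [← hι]
    exact Units.isUnit _
  refine ⟨k, ⟨hk0⟩, χ', rfl, hcop.symm, ?_, hq', ?_⟩
  · -- primitivity
    rw [isPrimitive_def]
    by_contra hne
    have hd : χ'.conductor ∣ k := χ'.conductor_dvd_level
    have hd5 : 5 * χ'.conductor ∣ 5 * k := mul_dvd_mul_left 5 hd
    have hfac : χ.FactorsThrough (5 * χ'.conductor) := by
      rw [factorsThrough_iff_ker_unitsMap hd5]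
      intro u hu
      rw [MonoidHom.mem_ker] at hu ⊢
      have h1 : ZMod.castHom hd5 (ZMod (5 * χ'.conductor)) (u : ZMod (5 * k)) = 1 := by
        have := congrArg Units.val hu
        simpa [ZMod.unitsMap] using this
      obtain ⟨a, ha⟩ : ∃ a : ℕ, (a : ZMod (5 * k)) = (u : ZMod (5 * k)) :=
        ZMod.natCast_zmod_surjective _
      have h2 : ((a : ℕ) : ZMod (5 * χ'.conductor)) = ((1 : ℕ) : ZMod (5 * χ'.conductor)) := by
        rw [← ha, map_natCast] at h1
        rw [h1, Nat.cast_one]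
      rw [ZMod.natCast_eq_natCast_iff] at h2
      have h25 : (a : ZMod 5) = 1 := by
        have := (ZMod.natCast_eq_natCast_iff a 1 5).2 (h2.of_mul_right _)
        simpa using this
      have h2c : (a : ZMod χ'.conductor) = 1 := by
        have := (ZMod.natCast_eq_natCast_iff a 1 χ'.conductor).2 (h2.of_mul_left _)
        simpa using this
      have hak : IsUnit (a : ZMod k) := by
        have h3 : IsUnit (e (u : ZMod (5 * k))) := u.isUnit.map e
        rw [← ha, he, Prod.isUnit_iff] at h3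
        exact h3.2
      obtain ⟨v, hv⟩ := hak
      have h4 : (u : ZMod (5 * k)) = e.symm (1, (v : ZMod k)) := by
        rw [RingEquiv.eq_symm_apply, ← ha, he, h25, hv]
      have h5 : χ' (v : ZMod k) = 1 := by
        have h6 := (factorsThrough_iff_ker_unitsMap hd).1 (factorsThrough_conductor χ')
        have h7 : v ∈ (ZMod.unitsMap hd).ker := by
          rw [MonoidHom.mem_ker]
          apply Units.ext
          have h8 : ZMod.castHom hd (ZMod χ'.conductor) (v : ZMod k) = 1 := by
            rw [hv, map_natCast, h2c]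
          simpa [ZMod.unitsMap] using h8
        have h9 := h6 h7
        rw [MonoidHom.mem_ker] at h9
        have h10 := congrArg Units.val h9
        rwa [MulChar.coe_toUnitHom, Units.val_one] at h10
      apply Units.ext
      rw [MulChar.coe_toUnitHom, Units.val_one, h4, ← hχ', h5]
    have h9 : χ.conductor ∣ 5 * χ'.conductor := χ.conductor_dvd_of_mem_conductorSet hfac
    rw [isPrimitive_def] at hχ
    rw [hχ] at h9
    have h10 := Nat.le_of_dvd (Nat.mul_pos (by norm_num)
      (Nat.pos_of_ne_zero (conductor_ne_zero χ'))) h9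
    have h11 := Nat.le_of_dvd (Nat.pos_of_ne_zero hk0) hd
    omega
  · intro n hn
    by_cases hnk : IsUnit (n : ZMod k)
    · obtain ⟨v, hv⟩ := hnk
      rcases hn with hn | hn
      · have h1 : (n : ZMod 5) = 1 := by
          have : (n : ZMod 5) = ((1 : ℕ) : ZMod 5) := by
            rw [ZMod.natCast_eq_natCast_iff]
            exact hn
          simpa using this
        rw [← hv, hχ', hv]
        congr 1
        rw [RingEquiv.eq_symm_apply, he, h1]
      · have h1 : (n : ZMod 5) = 4 := by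
          have : (n : ZMod 5) = ((4 : ℕ) : ZMod 5) := by
            rw [ZMod.natCast_eq_natCast_iff]
            exact hn
          simpa using this
        have h2 : (n : ZMod (5 * k)) = e.symm (2, 1) * e.symm (2, 1) * e.symm (1, (v : ZMod k)) := by
          rw [← map_mul, ← map_mul, RingEquiv.eq_symm_apply, he, h1, hv]
          ext
          · simp
            norm_num
          · simp
        have h3 : IsUnit (e.symm ((2 : ZMod 5), (1 : ZMod k))) := by
          apply IsUnit.map
          rw [Prod.isUnit_iff]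
          exact ⟨(by decide : IsUnit (2 : ZMod 5)), isUnit_one⟩
        rw [← hv, hχ', h2, map_mul, map_mul, hsq _ h3, one_mul]
    · rw [MulChar.map_nonunit χ' hnk, MulChar.map_nonunit]
      intro h
      apply hnk
      have h3 : IsUnit (e (n : ZMod (5 * k))) := h.map e
      rw [he, Prod.isUnit_iff] at h3
      exact h3.2

end Pool.Agent.Y708.SplitFive
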